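import Pool.Agent.Helper74.FP.Goals
import Pool.Agent.Helper52.Wq2.Minor

set_option autoImplicit false

namespace Pool.Agent.Helper47.FP

open Pool.Agent.Helper52.Wq2 Pool.Agent.Helper74.FP Monoid

universe u

/-- Transport. -/
def cst {κ : Type} (B : κ → Type u) [∀ k, Group (B k)] {k k' : κ} (e : k = k') : B k' →* B k :=
  e ▸ MonoidHom.id _

theorem f5 : F5Stmt.{u} := by
  classical
  intro ι κ f B _ T hf
  let ph : CoprodI (fun i => B (f i)) →* CoprodI B :=
    CoprodI.lift (fun i => (CoprodI.of (M := B) (i := f i)))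
  let ps : CoprodI B →* CoprodI (fun i => B (f i)) :=
    CoprodI.lift (fun k => if h : ∃ i, f i = k then
      (CoprodI.of (M := fun i => B (f i)) (i := h.choose)).comp (cst B h.choose_spec) else 1)
  have aux : ∀ (i i' : ι) (e : f i' = f i),
      (CoprodI.of (M := fun i => B (f i)) (i := i')).comp (cst B e) =
        CoprodI.of (M := fun i => B (f i)) (i := i) := by
    intro i i' e
    obtain rfl := hf e
    rfl
  have hpsph : ps.comp ph = MonoidHom.id _ := by
    apply CoprodI.ext_hom
    intro i
    ext x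
    change ps (ph (CoprodI.of (M := fun i => B (f i)) (i := i) x)) =
      CoprodI.of (M := fun i => B (f i)) (i := i) x
    have h1 : ph (CoprodI.of (M := fun i => B (f i)) (i := i) x) =
      CoprodI.of (M := B) (i := f i) x := CoprodI.lift_of _ _
    rw [h1]
    have h2 : ps (CoprodI.of (M := B) (i := f i) x) = (if h : ∃ i', f i' = f i then
      (CoprodI.of (M := fun i => B (f i)) (i := h.choose)).comp (cst B h.choose_spec) else 1) x :=
      CoprodI.lift_of _ _
    rw [h2, dif_pos ⟨i, rfl⟩, aux]
  have hinj : Function.Injective ph := by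
    intro x y hxy
    have h1 : (ps.comp ph) x = (ps.comp ph) y := by
      rw [MonoidHom.comp_apply, MonoidHom.comp_apply, hxy]
    rw [hpsph] at h1
    exact h1
  have hUS : ∀ x ∈ US (A := fun i => B (f i)) (fun i => T (f i)), ph x ∈ US T := by
    rintro _ ⟨i, s, hs, rfl⟩
    exact ⟨f i, s, hs, CoprodI.lift_of _ _⟩
  refine Mn.of_inj ph hinj ?_
  intro v w hvw
  unfold cay at hvw ⊢
  rw [SimpleGraph.fromRel_adj] at hvw ⊢
  refine ⟨fun h => hvw.1 (hinj h), ?_⟩
  rcases hvw.2 with h | h
  · left
    have := hUS _ h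
    rwa [map_mul, map_inv] at this
  · right
    have := hUS _ h
    rwa [map_mul, map_inv] at this

end Pool.Agent.Helper47.FP
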